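import Pool.Agent.helper813_loop.Main

namespace Pool.Agent.Results.MP_511665_al.LocalLoopLemma

open Pool.Agent.helper813_loop

lemma toNat_emod_succ (j : ℤ) (L : ℕ) (hL : 0 < L) :
    ((j + 1) % (L : ℤ)).toNat = ((j % (L : ℤ)).toNat + 1) % L := by
  have hL' : (L : ℤ) ≠ 0 := by omega
  have h4 := Int.emod_nonneg j hL'
  have h5 := Int.emod_nonneg (j + 1) hL'
  apply Int.ofNat_inj.1
  rw [Int.natCast_mod, Int.natCast_add, Int.toNat_of_nonneg h4, Int.toNat_of_nonneg h5]
  simp

/-- **The local loop lemma for odd closed walks.** Let `R` be a symmetric relation on a type `A`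
(of any cardinality), let `a : Fin l → A` be a closed walk of odd length `l` in `R`
(`i + 1` is taken modulo `l`, so that the closing edge is included), and let `f` be an `n`-ary
operation on `A` which is idempotent, compatible with `R`, and such that the neighbourhood of
`a 0` absorbs `{a 0}` with respect to `f` (at every position `j`). Then `R` has a loop.

Neither `3 ≤ l` nor the distinctness of the vertices of the walk is needed. -/
theorem result
    {A : Type*} (R : A → A → Prop) (hsymm : ∀ x y, R x y → R y x)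
    (l : ℕ) [NeZero l] (hodd : Odd l) (a : Fin l → A) (hcycle : ∀ i : Fin l, R (a i) (a (i + 1)))
    (n : ℕ) (f : (Fin n → A) → A) (hidem : ∀ x, f (fun _ => x) = x)
    (hcomp : ∀ x y : Fin n → A, (∀ i, R (x i) (y i)) → R (f x) (f y))
    (habs : ∀ (j : Fin n) (b : Fin n → A), (∀ i, R (a 0) (b i)) →
      R (a 0) (f (Function.update b j (a 0)))) :
    ∃ x, R x x := by
  obtain ⟨r, hr⟩ := hodd
  subst hr
  rcases Nat.eq_zero_or_pos r with hr0 | hr0
  · subst hr0
    refine ⟨a 0, ?_⟩
    have h1 : ((0 : Fin (2 * 0 + 1)) + 1) = 0 := by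
      apply Fin.ext
      have h2 := ((0 : Fin (2 * 0 + 1)) + 1).isLt
      have h3 : ((0 : Fin (2 * 0 + 1)) : ℕ) = 0 := rfl
      omega
    have := hcycle 0
    rwa [h1] at this
  rcases Nat.lt_or_ge n 2 with hn | hn
  · rcases Nat.eq_zero_or_pos n with hn0 | hn0
    · subst hn0
      exact ⟨f (fun i => i.elim0), hcomp _ _ (fun i => i.elim0)⟩
    · have hn1 : n = 1 := by omega
      subst hn1
      refine ⟨a 0, ?_⟩
      have h1 := habs 0 (fun _ => a (0 + 1)) (fun _ => hcycle 0)
      have h2 : Function.update (fun _ : Fin 1 => a (0 + 1)) 0 (a 0) = fun _ => a 0 := by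
        funext i
        rw [Subsingleton.elim i 0]
        simp
      rwa [h2, hidem] at h1
  have : NeZero n := ⟨by omega⟩
  have hl : (0 : ℤ) < ((2 * r + 1 : ℕ) : ℤ) := by push_cast; omega
  have hlt : ∀ j : ℤ, (j % ((2 * r + 1 : ℕ) : ℤ)).toNat < 2 * r + 1 := by
    intro j
    have h1 := Int.emod_lt_of_pos j hl
    have h2 := Int.emod_nonneg j hl.ne'
    omega
  let c : ℤ → A := fun j => a ⟨(j % ((2 * r + 1 : ℕ) : ℤ)).toNat, hlt j⟩
  have hc0 : c 0 = a 0 := by
    simp only [c]
    congr 1
  have hcmod : ∀ i j : ℤ, i % ((2 * r + 1 : ℕ) : ℤ) = j % ((2 * r + 1 : ℕ) : ℤ) → c i = c j := by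
    intro i j h
    simp only [c, h]
  have hstep : ∀ j, R (c j) (c (j + 1)) := by
    intro j
    have h := hcycle ⟨(j % ((2 * r + 1 : ℕ) : ℤ)).toNat, hlt j⟩
    have h2 : c (j + 1) = a ((⟨(j % ((2 * r + 1 : ℕ) : ℤ)).toNat, hlt j⟩ : Fin (2 * r + 1)) + 1) := by
      simp only [c]
      congr 1
      apply Fin.ext
      rw [Fin.val_add]
      have h3 : ((1 : Fin (2 * r + 1)) : ℕ) = 1 := by
        rw [Fin.val_one']
        exact Nat.mod_eq_of_lt (by omega)
      rw [h3]
      exact toNat_emod_succ j (2 * r + 1) (by omega)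
    rw [h2]
    exact h
  have hwalk : Walk R c r := by
    refine ⟨hsymm, hstep, ?_⟩
    have h := hstep r
    have h2 : c ((r : ℤ) + 1) = c (-r) := by
      apply hcmod
      have h3 : (r : ℤ) + 1 = -r + ((2 * r + 1 : ℕ) : ℤ) := by push_cast; ring
      rw [h3, Int.add_emod_right]
    rwa [h2] at h
  have hoper : Oper R c f := by
    refine ⟨hidem, hcomp, ?_⟩
    intro j b hbj hb
    rw [hc0] at hbj hb ⊢
    have h1 := habs j (Function.update b j (a (0 + 1))) (by
      intro i
      by_cases hij : i = j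
      · subst hij
        rw [Function.update_self]
        exact hcycle 0
      · rw [Function.update_of_ne hij]
        exact hb i hij)
    rw [Function.update_idem, ← hbj, Function.update_eq_self, hbj] at h1
    exact h1
  exact loop_of_two_le hwalk hoper hn hr0

end Pool.Agent.Results.MP_511665_al.LocalLoopLemma
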